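import Pool.Agent.X257.CH.Fin
import Mathlib.Analysis.Convex.SpecificFunctions.Basic
import Mathlib.Analysis.Convex.Jensen

/-!
# The averages over the fields of 2-power degree
-/

set_option autoImplicit false

namespace Pool.Agent.X257.CH

open NumberField IsCyclotomicExtension WeierstrassCurve Finset Pool.Agent.Y669 TensorProduct
open Pool.Agent.W307.RT (Cv Sh HasT)
open Pool.Agent.W307.RS (ShK)

open Classical in
/-- the curves of the family -/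
lemma curve_of {H : ℕ} {c : ℤ × ℤ} (hc : c ∈ Cv 2 H) : 4 * c.1 ^ 3 + 27 * c.2 ^ 2 ≠ 0 ∧
    ∃ e1 e2 e3 : ℤ, ∀ x : ℤ, x ^ 3 + c.1 * x + c.2 = (x - e1) * (x - e2) * (x - e3) := by
  unfold Cv at hc
  obtain ⟨_, a1, a2, _, _, a3⟩ := mem_filter.1 hc
  obtain ⟨F', -, hF'⟩ := Pool.Agent.W513.FK.parf
  obtain ⟨-, -, -, -, -, e1, e2, e3, hr, -, -⟩ := hF' c a1 a3
  exact ⟨a1, e1, e2, e3, hr⟩

lemma disc_tw {D A B : ℤ} (hD : D ≠ 0) (h : 4 * A ^ 3 + 27 * B ^ 2 ≠ 0) :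
    4 * (D ^ 2 * A) ^ 3 + 27 * (D ^ 3 * B) ^ 2 ≠ 0 := by
  have e : 4 * (D ^ 2 * A) ^ 3 + 27 * (D ^ 3 * B) ^ 2 = D ^ 6 * (4 * A ^ 3 + 27 * B ^ 2) := by
    ring
  rw [e]
  exact mul_ne_zero (pow_ne_zero 6 hD) h

section chars

variable (N : ℕ) [NeZero N] {K : Type} [Field K] [NumberField K] [IsCyclotomicExtension {N} ℚ K]
  [DecidableEq K]

include N

omit [NeZero N] in
/-- the trivial character -/
theorem avg_one : ∃ C : ℝ, 0 ≤ C ∧ ∀ D : ℤ, D ≠ 0 → ∀ H : ℕ, ∑ c ∈ Cv 2 H,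
      (4 : ℝ) ^ (Module.finrank ℂ (PartC K 1 (Sh (D ^ 2 * c.1) (D ^ 3 * c.2)))) ≤
        C * 128 ^ D.natAbs.primeFactors.card * (Cv 2 H).card := by
  obtain ⟨C, hC0, hC⟩ := Pool.Agent.W307.AT.twist_height
  refine ⟨C, hC0, fun D hD H => le_trans (sum_le_sum fun c hc => ?_) (hC D hD H)⟩
  have hgal : IsGalois ℚ K := IsCyclotomicExtension.isGalois {N} ℚ K
  obtain ⟨a1, e1, e2, e3, hr⟩ := curve_of hc
  have hfin := Pool.Agent.W307.RG.fin_tw a1 hr hD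
  have h1 := part_one (K := K) (Sh (D ^ 2 * c.1) (D ^ 3 * c.2)) hfin
  calc (4 : ℝ) ^ (Module.finrank ℂ (PartC K 1 (Sh (D ^ 2 * c.1) (D ^ 3 * c.2))))
      ≤ 4 ^ Module.finrank ℤ (Sh (D ^ 2 * c.1) (D ^ 3 * c.2)).toAffine.Point :=
        pow_le_pow_right₀ (by norm_num) h1
    _ = _ := by
        generalize Module.finrank ℤ (Sh (D ^ 2 * c.1) (D ^ 3 * c.2)).toAffine.Point = n
        rw [← pow_mul, Nat.mul_comm, pow_mul]
        norm_num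

/-- the characters of 2-power order -/
theorem avg_two (χ : (K ≃ₐ[ℚ] K) →* ℂˣ) (k : ℕ) (hk : ∀ σ, χ σ ^ (2 ^ k) = 1) :
    ∃ C : ℝ, 0 ≤ C ∧ ∀ D : ℤ, D ≠ 0 → ∀ H : ℕ, ∑ c ∈ Cv 2 H,
      (4 : ℝ) ^ (Module.finrank ℂ (PartC K χ (Sh (D ^ 2 * c.1) (D ^ 3 * c.2)))) ≤
        C * 128 ^ D.natAbs.primeFactors.card * (Cv 2 H).card := by
  classical
  have hex : ∃ k : ℕ, ∀ σ, χ σ ^ (2 ^ k) = 1 := ⟨k, hk⟩
  obtain ⟨b, hb⟩ : ∃ b, b = Nat.find hex := ⟨_, rfl⟩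
  have h1 := Nat.find_spec hex
  rw [← hb] at h1
  rcases b with _ | a
  · have h2 : χ = 1 := by
      ext σ
      have := h1 σ
      rw [pow_zero, pow_one] at this
      rw [this]
      rfl
    rw [h2]
    exact avg_one N
  · have h2 : ∃ σ, χ σ ^ (2 ^ a) ≠ 1 := by
      by_contra hcon
      push Not at hcon
      have := Nat.find_min' hex hcon
      omega
    exact avg_charD N χ a h1 h2

omit [DecidableEq K] in
lemma exists_chi (χ : (K ≃ₐ[ℚ] K) →* ℂˣ) : ∃ ψ : DirichletCharacter ℂ N, chi N ψ = χ := by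
  refine ⟨MulChar.ofUnitHom
    (χ.comp (IsCyclotomicExtension.Rat.galEquivZMod N K).symm.toMonoidHom), ?_⟩
  ext σ
  rw [chi_apply, MulChar.ofUnitHom_coe]
  show ((χ ((IsCyclotomicExtension.Rat.galEquivZMod N K).symm
    (IsCyclotomicExtension.Rat.galEquivZMod N K σ)) : ℂˣ) : ℂ) = _
  rw [MulEquiv.symm_apply_apply]

/-- **All characters of 2-power order of `Gal(ℚ(ζ_N)/ℚ)` and all quadratic twists.** -/
theorem avg_unif : ∃ C : ℝ, 0 ≤ C ∧ ∀ χ : (K ≃ₐ[ℚ] K) →* ℂˣ, (∃ k : ℕ, ∀ σ, χ σ ^ (2 ^ k) = 1) →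
    ∀ D : ℤ, D ≠ 0 → ∀ H : ℕ, ∑ c ∈ Cv 2 H,
      (4 : ℝ) ^ (Module.finrank ℂ (PartC K χ (Sh (D ^ 2 * c.1) (D ^ 3 * c.2)))) ≤
        C * 128 ^ D.natAbs.primeFactors.card * (Cv 2 H).card := by
  classical
  have h : ∀ ψ : DirichletCharacter ℂ N, ∃ C : ℝ, 0 ≤ C ∧
      ((∃ k : ℕ, ∀ σ : K ≃ₐ[ℚ] K, chi N ψ σ ^ (2 ^ k) = 1) → ∀ D : ℤ, D ≠ 0 → ∀ H : ℕ,
      ∑ c ∈ Cv 2 H, (4 : ℝ) ^ (Module.finrank ℂ (PartC K (chi N ψ)
        (Sh (D ^ 2 * c.1) (D ^ 3 * c.2)))) ≤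
        C * 128 ^ D.natAbs.primeFactors.card * (Cv 2 H).card) := by
    intro ψ
    by_cases hψ : ∃ k : ℕ, ∀ σ : K ≃ₐ[ℚ] K, chi N ψ σ ^ (2 ^ k) = 1
    · obtain ⟨k, hk⟩ := hψ
      obtain ⟨C, hC0, hC⟩ := avg_two N (chi N ψ) k hk
      exact ⟨C, hC0, fun _ => hC⟩
    · exact ⟨0, le_rfl, fun h => absurd h hψ⟩
  choose C hC0 hC using h
  refine ⟨∑ ψ, C ψ, sum_nonneg fun ψ _ => hC0 ψ, fun χ hχ D hD H => ?_⟩
  obtain ⟨ψ, rfl⟩ := exists_chi N χ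
  refine (hC ψ hχ D hD H).trans ?_
  have h2 : C ψ ≤ ∑ ψ, C ψ := single_le_sum (fun ψ _ => hC0 ψ) (mem_univ ψ)
  gcongr

end chars

/-- **The ranks over a subfield of 2-power degree of a cyclotomic field.** -/
theorem avg_field (N : ℕ) [NeZero N] {K : Type} [Field K] [NumberField K]
    [IsCyclotomicExtension {N} ℚ K] (F : IntermediateField ℚ K) [DecidableEq F] (n : ℕ)
    (hn : Module.finrank ℚ F = 2 ^ n) :
    ∃ C : ℝ, 0 ≤ C ∧ ∀ D : ℤ, D ≠ 0 → ∀ H : ℕ, ∑ c ∈ Cv 2 H, (4 : ℝ) ^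
      ((Module.finrank ℤ (ShK (((D ^ 2 * c.1 : ℤ)) : F) ((D ^ 3 * c.2 : ℤ) : F)).toAffine.Point
        : ℝ) / 2 ^ n) ≤ C * 128 ^ D.natAbs.primeFactors.card * (Cv 2 H).card := by
  classical
  obtain ⟨C, hC0, hC⟩ := avg_unif N (K := K)
  refine ⟨2 ^ n * C, by positivity, fun D hD H => ?_⟩
  have h1 : ∀ c ∈ Cv 2 H, (4 : ℝ) ^
      ((Module.finrank ℤ (ShK (((D ^ 2 * c.1 : ℤ)) : F) ((D ^ 3 * c.2 : ℤ) : F)).toAffine.Point
        : ℝ) / 2 ^ n) ≤ ∑ ψ ∈ XF N F, (4 : ℝ) ^ (Module.finrank ℂ (PartC K (chi N ψ)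
          (Sh (D ^ 2 * c.1) (D ^ 3 * c.2)))) := by
    intro c hc
    obtain ⟨a1, e1, e2, e3, hr⟩ := curve_of hc
    have a2 := disc_tw hD a1
    have hr' := Pool.Agent.W307.RG.roots_tw hr D
    have hW : Module.Finite ℤ ((Sh (D ^ 2 * c.1) (D ^ 3 * c.2)).baseChange K).toAffine.Point := by
      rw [bc_Sh]
      exact finK a2 hr'
    have h2 := rank_le N F (Sh (D ^ 2 * c.1) (D ^ 3 * c.2)) hW
    rw [bc_Sh F] at h2
    have hcard := card_XF_eq (N := N) F hn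
    have hne : (XF N F).Nonempty := by
      rw [← card_pos, hcard]
      positivity
    obtain ⟨ψ, hψ, hmax⟩ := exists_max_image (XF N F) (fun ψ => Module.finrank ℂ
      (PartC K (chi N ψ) (Sh (D ^ 2 * c.1) (D ^ 3 * c.2)))) hne
    have h3 := sum_le_card_nsmul (XF N F) _ _ hmax
    rw [hcard, smul_eq_mul] at h3
    have h4 : (Module.finrank ℤ (ShK (((D ^ 2 * c.1 : ℤ)) : F)
        ((D ^ 3 * c.2 : ℤ) : F)).toAffine.Point : ℝ) / 2 ^ n ≤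
        (Module.finrank ℂ (PartC K (chi N ψ) (Sh (D ^ 2 * c.1) (D ^ 3 * c.2))) : ℝ) := by
      rw [div_le_iff₀ (by positivity)]
      have h5 := h2.trans h3
      have h6 : (Module.finrank ℤ (ShK (((D ^ 2 * c.1 : ℤ)) : F)
        ((D ^ 3 * c.2 : ℤ) : F)).toAffine.Point : ℝ) ≤
        ((2 ^ n * Module.finrank ℂ (PartC K (chi N ψ) (Sh (D ^ 2 * c.1) (D ^ 3 * c.2))) : ℕ) :
          ℝ) := by exact_mod_cast h5
      refine h6.trans (le_of_eq ?_)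
      push_cast
      ring
    calc _ ≤ (4 : ℝ) ^ ((Module.finrank ℂ (PartC K (chi N ψ)
          (Sh (D ^ 2 * c.1) (D ^ 3 * c.2))) : ℝ)) :=
          Real.rpow_le_rpow_of_exponent_le (by norm_num) h4
      _ = (4 : ℝ) ^ (Module.finrank ℂ (PartC K (chi N ψ)
          (Sh (D ^ 2 * c.1) (D ^ 3 * c.2)))) := Real.rpow_natCast _ _
      _ ≤ _ := single_le_sum (f := fun ψ => (4 : ℝ) ^ (Module.finrank ℂ (PartC K (chi N ψ)
          (Sh (D ^ 2 * c.1) (D ^ 3 * c.2))))) (fun ψ _ => by positivity) hψ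
  refine (sum_le_sum h1).trans ?_
  rw [sum_comm]
  have h5 : ∀ ψ ∈ XF N F, ∑ c ∈ Cv 2 H, (4 : ℝ) ^ (Module.finrank ℂ (PartC K (chi N ψ)
          (Sh (D ^ 2 * c.1) (D ^ 3 * c.2)))) ≤
      C * 128 ^ D.natAbs.primeFactors.card * (Cv 2 H).card := fun ψ hψ =>
    hC (chi N ψ) ⟨n, fun σ => pow_mem F hn ψ hψ σ⟩ D hD H
  refine (sum_le_card_nsmul _ _ _ h5).trans ?_
  rw [card_XF_eq (N := N) F hn, nsmul_eq_mul]
  push_cast
  rw [← mul_assoc, ← mul_assoc]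

/-- Jensen's inequality for `4 ^ x` -/
lemma jensen {ι : Type} (s : Finset ι) (hs : s.Nonempty) (f : ι → ℝ) :
    (4 : ℝ) ^ ((∑ i ∈ s, f i) / s.card) ≤ (∑ i ∈ s, (4 : ℝ) ^ f i) / s.card := by
  have hc : (0 : ℝ) < s.card := by exact_mod_cast card_pos.2 hs
  have h4 : (0 : ℝ) < 4 := by norm_num
  have h1 := convexOn_exp.map_sum_le (t := s) (w := fun _ => (s.card : ℝ)⁻¹)
    (p := fun i => Real.log 4 * f i) (fun i _ => by positivity)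
    (by rw [sum_const, nsmul_eq_mul, mul_inv_cancel₀ hc.ne']) (fun i _ => Set.mem_univ _)
  simp only [smul_eq_mul] at h1
  rw [← mul_sum, ← mul_sum, ← mul_sum] at h1
  have e1 : (s.card : ℝ)⁻¹ * (Real.log 4 * ∑ i ∈ s, f i) =
      Real.log 4 * ((∑ i ∈ s, f i) / s.card) := by
    field_simp
  rw [e1, ← Real.rpow_def_of_pos h4] at h1
  have e2 : ∀ i, Real.exp (Real.log 4 * f i) = (4 : ℝ) ^ f i := fun i =>
    (Real.rpow_def_of_pos h4 _).symm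
  simp only [e2] at h1
  rw [div_eq_inv_mul (∑ i ∈ s, (4 : ℝ) ^ f i)]
  exact h1

/-- the rank over a multiquadratic extension -/
lemma rank_mq {F L : Type} [Field F] [Field L] [CharZero F] [Algebra F L] [DecidableEq F]
    [DecidableEq L] (r : ℕ) (x : Fin r → L) (d : Fin r → ℤ) (hx : ∀ i, x i ^ 2 = (d i : L))
    (hd : ∀ i, d i ≠ 0) (htop : IntermediateField.adjoin F (Set.range x) = ⊤) (A B : ℤ)
    (h : 4 * A ^ 3 + 27 * B ^ 2 ≠ 0)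
    (hfin : ∀ D : ℤ, D ≠ 0 → Module.Finite ℤ (ShK ((D ^ 2 * A : ℤ) : F)
      ((D ^ 3 * B : ℤ) : F)).toAffine.Point) :
    Module.finrank ℤ (ShK (A : L) (B : L)).toAffine.Point ≤
      ∑ T : Finset (Fin r), Module.finrank ℤ (ShK (((∏ i ∈ T, d i) ^ 2 * A : ℤ) : F)
        (((∏ i ∈ T, d i) ^ 3 * B : ℤ) : F)).toAffine.Point := by
  classical
  have hF : 4 * (A : F) ^ 3 + 27 * (B : F) ^ 2 ≠ 0 := by exact_mod_cast h
  have h1 := Pool.Agent.W410.RS.gen Pool.Agent.W612.RS.mq1 (univ : Finset (Fin r)) F L x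
    (fun i => (d i : F)) (fun i _ => by rw [hx i, map_intCast])
    (fun i _ => by exact_mod_cast hd i)
    (by rw [coe_univ, Set.image_univ]; exact htop) (A : F) (B : F) hF
  have e1 : algebraMap F L (A : F) = (A : L) := map_intCast _ _
  have e2 : algebraMap F L (B : F) = (B : L) := map_intCast _ _
  rw [e1, e2, powerset_univ] at h1
  have h2 : ∀ T : Finset (Fin r), Pool.Agent.W410.RS.rk ((∏ i ∈ T, (d i : F)) ^ 2 * (A : F))
      ((∏ i ∈ T, (d i : F)) ^ 3 * (B : F)) =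
      ((Module.finrank ℤ (ShK (((∏ i ∈ T, d i) ^ 2 * A : ℤ) : F)
        (((∏ i ∈ T, d i) ^ 3 * B : ℤ) : F)).toAffine.Point : ℕ) : Cardinal) := by
    intro T
    have hT : (∏ i ∈ T, d i) ≠ 0 := prod_ne_zero_iff.2 fun i _ => hd i
    have := hfin _ hT
    have e3 : (∏ i ∈ T, (d i : F)) ^ 2 * (A : F) = (((∏ i ∈ T, d i) ^ 2 * A : ℤ) : F) := by
      push_cast
      ring
    have e4 : (∏ i ∈ T, (d i : F)) ^ 3 * (B : F) = (((∏ i ∈ T, d i) ^ 3 * B : ℤ) : F) := by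
      push_cast
      ring
    rw [e3, e4, Pool.Agent.W410.RS.rk_eq, Module.finrank_eq_rank]
  rw [Pool.Agent.W410.RS.rk_eq] at h1
  simp only [h2] at h1
  rw [← Nat.cast_sum] at h1
  exact Module.finrank_le_of_rank_le h1

/-- **The ranks over `F(√d_1, ..., √d_r)`.** -/
theorem avg_mq (N : ℕ) [NeZero N] {K : Type} [Field K] [NumberField K]
    [IsCyclotomicExtension {N} ℚ K] (F : IntermediateField ℚ K) (n : ℕ)
    (hn : Module.finrank ℚ F = 2 ^ n) :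
    ∃ C : ℝ, 0 ≤ C ∧ ∀ (r : ℕ) (d : Fin r → ℤ), (∀ i, d i ≠ 0) →
      ∀ (L : Type) [Field L] [Algebra F L] [DecidableEq L] (x : Fin r → L),
      (∀ i, x i ^ 2 = (d i : L)) → IntermediateField.adjoin F (Set.range x) = ⊤ →
      ∀ D : ℤ, D ≠ 0 → ∀ H : ℕ, ∑ c ∈ Cv 2 H, (4 : ℝ) ^
        ((Module.finrank ℤ (ShK (((D ^ 2 * c.1 : ℤ)) : L) ((D ^ 3 * c.2 : ℤ) : L)).toAffine.Point
        : ℝ) / 2 ^ (n + r)) ≤
        C * 128 ^ (D * ∏ i, d i).natAbs.primeFactors.card * (Cv 2 H).card := by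
  classical
  obtain ⟨C, hC0, hC⟩ := avg_field N F n hn
  refine ⟨C, hC0, fun r d hd L _ _ _ x hx htop D hD H => ?_⟩
  have hdT : ∀ T : Finset (Fin r), (∏ i ∈ T, d i) ≠ 0 := fun T =>
    prod_ne_zero_iff.2 fun i _ => hd i
  have hcardT : ((univ : Finset (Finset (Fin r))).card : ℝ) = 2 ^ r := by
    rw [card_univ, Fintype.card_finset, Fintype.card_fin]
    push_cast
    rfl
  -- the inequality for one curve
  have h1 : ∀ c ∈ Cv 2 H, (4 : ℝ) ^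
        ((Module.finrank ℤ (ShK (((D ^ 2 * c.1 : ℤ)) : L) ((D ^ 3 * c.2 : ℤ) : L)).toAffine.Point
        : ℝ) / 2 ^ (n + r)) ≤ (∑ T : Finset (Fin r), (4 : ℝ) ^ ((Module.finrank ℤ
          (ShK ((((∏ i ∈ T, d i) * D) ^ 2 * c.1 : ℤ) : F)
          ((((∏ i ∈ T, d i) * D) ^ 3 * c.2 : ℤ) : F)).toAffine.Point : ℝ) / 2 ^ n)) / 2 ^ r := by
    intro c hc
    obtain ⟨a1, e1, e2, e3, hr⟩ := curve_of hc
    have a2 := disc_tw hD a1
    have hr' := Pool.Agent.W307.RG.roots_tw hr D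
    have h2 := rank_mq (F := F) r x d hx hd htop (D ^ 2 * c.1) (D ^ 3 * c.2) a2
      (fun D' hD' => finK (disc_tw hD' a2) (Pool.Agent.W307.RG.roots_tw hr' D'))
    have e5 : ∀ T : Finset (Fin r), (∏ i ∈ T, d i) ^ 2 * (D ^ 2 * c.1) =
      ((∏ i ∈ T, d i) * D) ^ 2 * c.1 := fun T => by ring
    have e6 : ∀ T : Finset (Fin r), (∏ i ∈ T, d i) ^ 3 * (D ^ 3 * c.2) =
      ((∏ i ∈ T, d i) * D) ^ 3 * c.2 := fun T => by ring
    have h2' : ∑ T : Finset (Fin r), Module.finrank ℤ (ShK (((∏ i ∈ T, d i) ^ 2 *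
        (D ^ 2 * c.1) : ℤ) : F) (((∏ i ∈ T, d i) ^ 3 * (D ^ 3 * c.2) : ℤ) : F)).toAffine.Point =
        ∑ T : Finset (Fin r), Module.finrank ℤ (ShK ((((∏ i ∈ T, d i) * D) ^ 2 * c.1 : ℤ) : F)
          ((((∏ i ∈ T, d i) * D) ^ 3 * c.2 : ℤ) : F)).toAffine.Point :=
      sum_congr rfl fun T _ => by rw [e5, e6]
    rw [h2'] at h2
    have h3 := jensen (univ : Finset (Finset (Fin r))) univ_nonempty (fun T =>
      (Module.finrank ℤ (ShK ((((∏ i ∈ T, d i) * D) ^ 2 * c.1 : ℤ) : F)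
          ((((∏ i ∈ T, d i) * D) ^ 3 * c.2 : ℤ) : F)).toAffine.Point : ℝ) / 2 ^ n)
    rw [hcardT] at h3
    refine le_trans (Real.rpow_le_rpow_of_exponent_le (by norm_num) ?_) h3
    rw [← sum_div, div_div, ← pow_add]
    gcongr
    exact_mod_cast h2
  refine (sum_le_sum h1).trans ?_
  rw [← sum_div, div_le_iff₀ (by positivity), sum_comm]
  have h2 : ∀ T ∈ (univ : Finset (Finset (Fin r))), ∑ c ∈ Cv 2 H, (4 : ℝ) ^ ((Module.finrank ℤ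
          (ShK ((((∏ i ∈ T, d i) * D) ^ 2 * c.1 : ℤ) : F)
          ((((∏ i ∈ T, d i) * D) ^ 3 * c.2 : ℤ) : F)).toAffine.Point : ℝ) / 2 ^ n) ≤
      C * 128 ^ (D * ∏ i, d i).natAbs.primeFactors.card * (Cv 2 H).card := by
    intro T _
    refine (hC ((∏ i ∈ T, d i) * D) (mul_ne_zero (hdT T) hD) H).trans ?_
    have h3 : ((∏ i ∈ T, d i) * D).natAbs.primeFactors.card ≤
        (D * ∏ i, d i).natAbs.primeFactors.card := by
      refine card_le_card (Nat.primeFactors_mono ?_ ?_)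
      · rw [Int.natAbs_dvd_natAbs, mul_comm]
        exact mul_dvd_mul_left D (prod_dvd_prod_of_subset _ _ _ (subset_univ T))
      · rw [Int.natAbs_ne_zero]
        exact mul_ne_zero hD (hdT univ)
    gcongr
    norm_num
  refine (sum_le_card_nsmul _ _ _ h2).trans ?_
  rw [nsmul_eq_mul, hcardT, mul_comm]

end Pool.Agent.X257.CH
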