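import Pool.Agent.Y669.HtA

/-!
# The sums over the quadratic twists by `D` of the curves with full rational 2-torsion, uniformly in `D`

Adaptation of `Pool.Agent.Y669.height_of`.
-/

set_option autoImplicit false

namespace Pool.Agent.X257.CH

open Finset Pool.Agent.W262.RK Pool.Agent.W307.RT Pool.Agent.W307.RS Pool.Agent.W307.SE
open Pool.Agent.W307.FK Pool.Agent.W307.FK.G Pool.Agent.W410.FK Pool.Agent.W307.AT Pool.Agent.Y669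

/-- the second moment of a function over the curves with full rational 2-torsion, by height -/
theorem heightD {G : ℤ → ℤ → ℕ} (h1 : AVGNG G) :
    ∃ C : ℝ, 0 ≤ C ∧ ∀ D : ℤ, D ≠ 0 → ∀ R : ℤ × ℤ → ℝ, (∀ c, 0 ≤ R c) →
    (∀ H : ℕ, ∀ c ∈ Cv 2 H, ∀ e1 e2 e3 : ℤ,
      (∀ x : ℤ, x ^ 3 + c.1 * x + c.2 = (x - e1) * (x - e2) * (x - e3)) →
      e2 - e1 ≠ 0 → e3 - e1 ≠ 0 → e2 - e1 ≠ e3 - e1 →
      R c ≤ (G (D * (e2 - e1)) (D * (e3 - e1)) : ℝ)) →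
    ∀ H : ℕ, ∑ c ∈ Cv 2 H, R c ^ 2 ≤ C * 128 ^ D.natAbs.primeFactors.card * (Cv 2 H).card := by
  classical
  have h2 : SOM := Pool.Agent.W334.FK.som
  have h4 : LOW 2 6 := Pool.Agent.W672.FK.lowf
  obtain ⟨F, hinj, hF⟩ := Pool.Agent.W513.FK.parf
  have hmem : ∀ H, ∀ c ∈ Cv 2 H, 4 * c.1 ^ 3 + 27 * c.2 ^ 2 ≠ 0 ∧ 4 * |c.1| ^ 3 ≤ H ∧
      HasT 2 (Sh c.1 c.2) := by
    intro H c hc
    unfold Cv at hc
    obtain ⟨_, a1, a2, _, _, a3⟩ := mem_filter.1 hc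
    exact ⟨a1, a2, a3⟩
  let F' : ℤ × ℤ → ℤ × ℤ := fun c => (((F c).1 : ℤ) * (F c).2.1, ((F c).1 : ℤ) * (F c).2.2)
  have key : ∀ H, ∀ c ∈ Cv 2 H, (F' c).1.natAbs ^ 6 ≤ 16 * H ∧
        (F' c).2.natAbs ^ 6 ≤ 16 * H := by
    intro H c hc
    obtain ⟨a1, a2, a3⟩ := hmem H c hc
    obtain ⟨b1, b2, b3, b4, b5, e1, e2, e3, hr, d1, d2⟩ := hF c a1 a3
    obtain ⟨r1, r2⟩ := root_bd hr
    refine ⟨?_, ?_⟩
    · rw [d1] at r1
      exact size_bd r1 a2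
    · rw [d2] at r2
      exact size_bd r2 a2
  have hinj' : ∀ H, Set.InjOn F' (Cv 2 H : Set (ℤ × ℤ)) := by
    intro H c hc c' hc' h
    obtain ⟨a1, _, a3⟩ := hmem H c hc
    obtain ⟨a1', _, a3'⟩ := hmem H c' hc'
    obtain ⟨b1, b2, _⟩ := hF c a1 a3
    obtain ⟨b1', b2', _⟩ := hF c' a1' a3'
    apply hinj ⟨a1, a3⟩ ⟨a1', a3'⟩
    have hgcd : ∀ x : ℕ × ℤ × ℤ, IsCoprime x.2.1 x.2.2 →
        Int.gcd ((x.1 : ℤ) * x.2.1) ((x.1 : ℤ) * x.2.2) = x.1 := by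
      intro x hx
      rw [Int.gcd_mul_left, Int.isCoprime_iff_gcd_eq_one.1 hx, mul_one, Int.natAbs_natCast]
    have g1 : (F c).1 = (F c').1 := by
      rw [← hgcd _ b2, ← hgcd _ b2']
      have k1 := congrArg Prod.fst h
      have k2 := congrArg Prod.snd h
      change ((F c).1 : ℤ) * (F c).2.1 = ((F c').1 : ℤ) * (F c').2.1 at k1
      change ((F c).1 : ℤ) * (F c).2.2 = ((F c').1 : ℤ) * (F c').2.2 at k2
      rw [k1, k2]
    have hg : ((F c).1 : ℤ) ≠ 0 := by exact_mod_cast (by omega : (F c).1 ≠ 0)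
    have k1 : ((F c).1 : ℤ) * (F c).2.1 = ((F c').1 : ℤ) * (F c').2.1 := congrArg Prod.fst h
    have k2 : ((F c).1 : ℤ) * (F c).2.2 = ((F c').1 : ℤ) * (F c').2.2 := congrArg Prod.snd h
    rw [← g1] at k1 k2
    exact Prod.ext g1 (Prod.ext (mul_left_cancel₀ hg k1) (mul_left_cancel₀ hg k2))
  obtain ⟨K, hK, hfin⟩ := final_uni (by norm_num) h4 16 F' (fun H => ⟨hinj' H, key H⟩)
  obtain ⟨C, hC, hbox⟩ := box_GDG h1 h2
  refine ⟨K * C, by positivity, fun D hD R hR0 hR => ?_⟩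
  have key2 : ∀ H, ∀ c ∈ Cv 2 H, R c ^ 2 ≤ GDG G D (F' c) := by
    intro H c hc
    obtain ⟨a1, a2, a3⟩ := hmem H c hc
    obtain ⟨b1, b2, b3, b4, b5, e1, e2, e3, hr, d1, d2⟩ := hF c a1 a3
    have hg : ((F c).1 : ℤ) ≠ 0 := by exact_mod_cast (by omega : (F c).1 ≠ 0)
    have hne1 : (F' c).1 ≠ 0 := mul_ne_zero hg b3
    have hne2 : (F' c).2 ≠ 0 := mul_ne_zero hg b4
    have hne3 : (F' c).1 ≠ (F' c).2 := fun h => b5 (mul_left_cancel₀ hg h)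
    have f4 := hR H c hc e1 e2 e3 hr (by rw [d1]; exact hne1) (by rw [d2]; exact hne2)
      (by rw [d1, d2]; exact hne3)
    unfold GDG
    rw [if_pos ⟨hne1, hne2, hne3⟩]
    rw [d1, d2] at f4
    exact pow_le_pow_left₀ (hR0 c) f4 2
  intro H
  have h5 := hfin (fun c => R c ^ 2) (GDG G D) (GDG_nonneg G D) key2
    (C * 128 ^ D.natAbs.primeFactors.card) (by positivity) (fun T hT => hbox D hD T hT) H
  rw [← mul_assoc] at h5
  exact h5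

end Pool.Agent.X257.CH
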