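import Pool.Agent.Y669.MainC
import Pool.Agent.W307.AT.Main
import Pool.Agent.H437R2.Man.MWWeak

/-!
# The decomposition of `E(K) ⊗ ℂ` for a cyclotomic field `K`
-/

set_option autoImplicit false

namespace Pool.Agent.X257.CH

open NumberField IsCyclotomicExtension WeierstrassCurve Finset Pool.Agent.Y669 TensorProduct
open Pool.Agent.W307.RT (Cv Sh)

section gen

/-- elements of a finitely generated abelian group modulo a maximal independent family -/
lemma span_of_max {M : Type*} [AddCommGroup M] [Module.Finite ℤ M] {m : ℕ}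
    (hm : Module.finrank ℤ M = m) {v : Fin m → M} (hv : LinearIndependent ℤ v) (x : M) :
    ∃ c : ℤ, c ≠ 0 ∧ c • x ∈ Submodule.span ℤ (Set.range v) := by
  by_contra hcon
  push Not at hcon
  have h1 : LinearIndependent ℤ (Fin.cons x v : Fin (m + 1) → M) := by
    refine LinearIndependent.finCons' x v hv fun c y hy hxy => ?_
    by_contra hc
    refine hcon c hc ?_
    have : c • x = -y := eq_neg_of_add_eq_zero_left hxy
    rw [this]
    exact Submodule.neg_mem _ hy
  have h2 := h1.fintype_card_le_finrank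
  rw [hm, Fintype.card_fin] at h2
  omega

lemma exists_family (M : Type*) [AddCommGroup M] [Module.Finite ℤ M] :
    ∃ v : Fin (Module.finrank ℤ M) → M, LinearIndependent ℤ v := by
  obtain ⟨s, hs, hli⟩ := exists_finset_linearIndependent_of_le_finrank
    (R := ℤ) (M := M) (n := Module.finrank ℤ M) le_rfl
  let e : Fin (Module.finrank ℤ M) ≃ s := (Fintype.equivFinOfCardEq (by simpa using hs)).symm
  exact ⟨fun i => (e i : M), hli.comp e e.injective⟩

/-- the span of the image of a subgroup -/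
lemma span_le_span {M N : Type*} [AddCommGroup M] [Module.Finite ℤ M] [AddCommGroup N]
    (f : M →+ N) {v : Fin (Module.finrank ℤ M) → M} (hv : LinearIndependent ℤ v) :
    Submodule.span ℂ (Set.range fun x : M => ((1 : ℂ) ⊗ₜ[ℤ] f x : ℂ ⊗[ℤ] N)) ≤
      Submodule.span ℂ (Set.range fun i => ((1 : ℂ) ⊗ₜ[ℤ] f (v i) : ℂ ⊗[ℤ] N)) := by
  rw [Submodule.span_le]
  rintro _ ⟨x, rfl⟩
  obtain ⟨c, hc, hx⟩ := span_of_max rfl hv x
  have h2 : ∀ y ∈ Submodule.span ℤ (Set.range v), ((1 : ℂ) ⊗ₜ[ℤ] f y : ℂ ⊗[ℤ] N) ∈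
      Submodule.span ℂ (Set.range fun i => ((1 : ℂ) ⊗ₜ[ℤ] f (v i) : ℂ ⊗[ℤ] N)) := by
    intro y hy
    induction hy using Submodule.span_induction with
    | mem y hy =>
      obtain ⟨i, rfl⟩ := hy
      exact Submodule.subset_span ⟨i, rfl⟩
    | zero => rw [map_zero, TensorProduct.tmul_zero]; exact Submodule.zero_mem _
    | add y z _ _ h3 h4 =>
      rw [map_add, TensorProduct.tmul_add]
      exact Submodule.add_mem _ h3 h4
    | smul a y _ h3 =>
      rw [map_zsmul, TensorProduct.tmul_smul]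
      exact Submodule.smul_of_tower_mem _ a h3
  have h3 := h2 _ hx
  rw [map_zsmul, TensorProduct.tmul_smul] at h3
  have h4 := Submodule.smul_mem _ ((c : ℂ)⁻¹) h3
  have h5 : (c : ℂ)⁻¹ • (c • ((1 : ℂ) ⊗ₜ[ℤ] f x : ℂ ⊗[ℤ] N)) = (1 : ℂ) ⊗ₜ[ℤ] f x := by
    rw [← Int.cast_smul_eq_zsmul ℂ c, smul_smul, inv_mul_cancel₀ (by exact_mod_cast hc),
      one_smul]
  rw [h5] at h4
  exact h4

/-- the span of the image of a subgroup has finite dimension -/
lemma finite_span {M N : Type*} [AddCommGroup M] [Module.Finite ℤ M] [AddCommGroup N]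
    (f : M →+ N) : Module.Finite ℂ
      (Submodule.span ℂ (Set.range fun x : M => ((1 : ℂ) ⊗ₜ[ℤ] f x : ℂ ⊗[ℤ] N))) := by
  obtain ⟨v, hv⟩ := exists_family M
  have hfin : Module.Finite ℂ (Submodule.span ℂ
      (Set.range fun i => ((1 : ℂ) ⊗ₜ[ℤ] f (v i) : ℂ ⊗[ℤ] N))) :=
    FiniteDimensional.span_of_finite ℂ (Set.finite_range _)
  exact Submodule.finiteDimensional_of_le (span_le_span f hv)

lemma finrank_span_le {M N : Type*} [AddCommGroup M] [Module.Finite ℤ M] [AddCommGroup N]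
    (f : M →+ N) :
    Module.finrank ℂ (Submodule.span ℂ (Set.range fun x : M => ((1 : ℂ) ⊗ₜ[ℤ] f x : ℂ ⊗[ℤ] N))) ≤
      Module.finrank ℤ M := by
  obtain ⟨v, hv⟩ := exists_family M
  have h1 := span_le_span f hv
  have h6 : Module.finrank ℂ (Submodule.span ℂ
      (Set.range fun i => ((1 : ℂ) ⊗ₜ[ℤ] f (v i) : ℂ ⊗[ℤ] N))) ≤
      Fintype.card (Fin (Module.finrank ℤ M)) :=
    finrank_range_le_card (R := ℂ) (fun i => ((1 : ℂ) ⊗ₜ[ℤ] f (v i) : ℂ ⊗[ℤ] N))
  rw [Fintype.card_fin] at h6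
  have hfin : Module.Finite ℂ (Submodule.span ℂ
      (Set.range fun i => ((1 : ℂ) ⊗ₜ[ℤ] f (v i) : ℂ ⊗[ℤ] N))) :=
    FiniteDimensional.span_of_finite ℂ (Set.finite_range _)
  exact (Submodule.finrank_mono h1).trans h6

/-- the span of the image of a subgroup has dimension at least the rank -/
lemma le_finrank {M N : Type*} [AddCommGroup M] [Module.Finite ℤ M] [AddCommGroup N]
    [Module.Finite ℤ N] (f : M →+ N) (hf : Function.Injective f) (S : Submodule ℂ (ℂ ⊗[ℤ] N))
    (hS : ∀ x, ((1 : ℂ) ⊗ₜ[ℤ] f x : ℂ ⊗[ℤ] N) ∈ S) :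
    Module.finrank ℤ M ≤ Module.finrank ℂ S := by
  obtain ⟨v, hv⟩ := exists_family M
  let g : (Fin (Module.finrank ℤ M) → ℤ) →ₗ[ℤ] N :=
    f.toIntLinearMap ∘ₗ (Fintype.linearCombination ℤ v)
  have hg : Function.Injective g := by
    intro x y hxy
    have h1 : Fintype.linearCombination ℤ v x = Fintype.linearCombination ℤ v y := hf hxy
    exact (linearIndependent_iff_injective_fintypeLinearCombination.1 hv) h1
  have hflat : Function.Injective (LinearMap.baseChange ℂ g) :=
    Module.Flat.lTensor_preserves_injective_linearMap (M := ℂ) g hg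
  have hr : LinearMap.range (LinearMap.baseChange ℂ g) ≤ S := by
    rintro _ ⟨w, rfl⟩
    induction w using TensorProduct.induction_on with
    | zero => rw [map_zero]; exact Submodule.zero_mem _
    | tmul c x =>
      rw [LinearMap.baseChange_tmul]
      have h2 : c ⊗ₜ[ℤ] g x = c • ((1 : ℂ) ⊗ₜ[ℤ] f (Fintype.linearCombination ℤ v x)) := by
        rw [TensorProduct.smul_tmul', smul_eq_mul, mul_one]
        rfl
      rw [h2]
      exact Submodule.smul_mem _ _ (hS _)
    | add x y hx hy => rw [map_add]; exact Submodule.add_mem _ hx hy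
  have h3 : Module.finrank ℂ (LinearMap.range (LinearMap.baseChange ℂ g)) =
      Module.finrank ℤ M := by
    rw [LinearMap.finrank_range_of_inj hflat, Module.finrank_baseChange, Module.finrank_fin_fun]
  rw [← h3]
  exact Submodule.finrank_mono hr

/-- the dimension of a sum of subspaces -/
lemma finrank_sup_le {V ι : Type*} [AddCommGroup V] [Module ℂ V] [FiniteDimensional ℂ V]
    (s : Finset ι) (P : ι → Submodule ℂ V) :
    Module.finrank ℂ (s.sup P : Submodule ℂ V) ≤ ∑ i ∈ s, Module.finrank ℂ (P i) := by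
  classical
  induction s using Finset.induction_on with
  | empty => simp
  | insert a s ha ih =>
    rw [Finset.sup_insert, Finset.sum_insert ha]
    exact (Submodule.finrank_add_le_finrank_add_finrank _ _).trans (by omega)

end gen

section gal

variable {K : Type} [Field K] [NumberField K] [DecidableEq K]

lemma proj_mem (W : WeierstrassCurve ℚ) (χ : (K ≃ₐ[ℚ] K) →* ℂˣ)
    (P : (W.baseChange K).toAffine.Point) : proj W χ P ∈ PartC K χ W := by
  show ∀ σ : K ≃ₐ[ℚ] K, LinearMap.baseChange ℂ (gact W σ).toIntLinearMap (proj W χ P) =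
    ((χ σ : ℂˣ) : ℂ) • proj W χ P
  intro σ
  rw [proj_apply, map_sum, Finset.smul_sum]
  refine Fintype.sum_equiv (Equiv.mulLeft σ) _ _ fun τ => ?_
  rw [Equiv.coe_mulLeft, map_smul, LinearMap.baseChange_tmul, smul_smul]
  have e1 : (gact W σ).toIntLinearMap (gact W τ P) = gact W (σ * τ) P := by
    rw [gact_mul]
    rfl
  rw [e1]
  congr 1
  rw [map_mul, Units.val_mul, mul_inv, mul_inv_cancel_left₀ (Units.ne_zero _)]

/-- the Galois invariant points are rational -/
lemma fixed_mem (W : WeierstrassCurve ℚ) [IsGalois ℚ K] (P : (W.baseChange K).toAffine.Point)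
    (hP : ∀ σ : K ≃ₐ[ℚ] K, gact W σ P = P) :
    P ∈ (Affine.Point.map (W' := W.toAffine) (Algebra.ofId ℚ K)).range := by
  rcases P with _ | ⟨x, y, h0⟩
  · exact ⟨0, rfl⟩
  · have hxy : ∀ σ : K ≃ₐ[ℚ] K, σ x = x ∧ σ y = y := by
      intro σ
      have h1 := hP σ
      obtain ⟨h', h2⟩ := gact_some (W := W) σ h0
      rw [h2, Affine.Point.some.injEq] at h1
      exact h1
    have hx : x ∈ Set.range (algebraMap ℚ K) := by
      rw [IsGalois.mem_range_algebraMap_iff_fixed]
      exact fun σ => (hxy σ).1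
    have hy : y ∈ Set.range (algebraMap ℚ K) := by
      rw [IsGalois.mem_range_algebraMap_iff_fixed]
      exact fun σ => (hxy σ).2
    obtain ⟨q1, hq1⟩ := hx
    obtain ⟨q2, hq2⟩ := hy
    have e1 : (Algebra.ofId ℚ K) q1 = x := hq1
    have e2 : (Algebra.ofId ℚ K) q2 = y := hq2
    have hns : (W.baseChange K).toAffine.Nonsingular ((Algebra.ofId ℚ K) q1)
        ((Algebra.ofId ℚ K) q2) := by
      rw [e1, e2]
      exact h0
    have hns' : (W.baseChange ℚ).toAffine.Nonsingular q1 q2 :=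
      (Affine.baseChange_nonsingular W.toAffine (f := Algebra.ofId ℚ K)
        (Algebra.ofId ℚ K).injective q1 q2).1 hns
    refine ⟨Affine.Point.some q1 q2 hns', ?_⟩
    rw [Affine.Point.map_some]
    congr 1

lemma baseChange_self (W : WeierstrassCurve ℚ) : W.baseChange ℚ = W := WeierstrassCurve.map_id W

/-- the part of the trivial character comes from the rational points -/
lemma part_one (W : WeierstrassCurve ℚ) [IsGalois ℚ K] (hW : Module.Finite ℤ W.toAffine.Point) :
    Module.finrank ℂ (PartC K (1 : (K ≃ₐ[ℚ] K) →* ℂˣ) W) ≤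
      Module.finrank ℤ W.toAffine.Point := by
  have hW' : Module.Finite ℤ (W.baseChange ℚ).toAffine.Point := by
    rw [baseChange_self]; exact hW
  have h1 : Module.finrank ℤ W.toAffine.Point =
      Module.finrank ℤ (W.baseChange ℚ).toAffine.Point := by
    rw [baseChange_self]
  rw [h1]
  let j : (W.baseChange ℚ).toAffine.Point →+ (W.baseChange K).toAffine.Point :=
    Affine.Point.map (W' := W.toAffine) (Algebra.ofId ℚ K)
  have h2 : PartC K (1 : (K ≃ₐ[ℚ] K) →* ℂˣ) W ≤
      Submodule.span ℂ (Set.range fun x => ((1 : ℂ) ⊗ₜ[ℤ] j x :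
        ℂ ⊗[ℤ] (W.baseChange K).toAffine.Point)) := by
    refine (part_le W 1).trans (Submodule.span_mono ?_)
    rintro _ ⟨P, rfl⟩
    have h3 : (∑ τ : K ≃ₐ[ℚ] K, gact W τ P) ∈ j.range := by
      refine fixed_mem W _ fun σ => ?_
      rw [map_sum]
      refine Fintype.sum_equiv (Equiv.mulLeft σ) _ _ fun τ => ?_
      rw [Equiv.coe_mulLeft, gact_mul]
    obtain ⟨Q, hQ⟩ := h3
    refine ⟨Q, ?_⟩
    show (1 : ℂ) ⊗ₜ[ℤ] j Q = proj W 1 P
    rw [hQ, proj_apply, TensorProduct.tmul_sum]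
    refine Finset.sum_congr rfl fun τ _ => ?_
    simp
  have h4 := finrank_span_le j
  obtain ⟨v, hv⟩ := exists_family (W.baseChange ℚ).toAffine.Point
  refine le_trans ?_ h4
  have hfd : Module.Finite ℂ (Submodule.span ℂ (Set.range fun x => ((1 : ℂ) ⊗ₜ[ℤ] j x :
        ℂ ⊗[ℤ] (W.baseChange K).toAffine.Point))) := finite_span j
  exact Submodule.finrank_mono h2

end gal

section dir

variable (N : ℕ) [NeZero N] {K : Type} [Field K] [NumberField K] [IsCyclotomicExtension {N} ℚ K]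

/-- the character of the Galois group that belongs to a Dirichlet character -/
noncomputable def chi (ψ : DirichletCharacter ℂ N) : (K ≃ₐ[ℚ] K) →* ℂˣ :=
  ψ.toUnitHom.comp (IsCyclotomicExtension.Rat.galEquivZMod N K).toMonoidHom

lemma chi_apply (ψ : DirichletCharacter ℂ N) (σ : K ≃ₐ[ℚ] K) :
    ((chi N ψ σ : ℂˣ) : ℂ) = ψ ((IsCyclotomicExtension.Rat.galEquivZMod N K σ : (ZMod N)ˣ) :
      ZMod N) := rfl

open Classical in
lemma sum_chi (σ : K ≃ₐ[ℚ] K) :
    ∑ ψ : DirichletCharacter ℂ N, ((chi N ψ σ : ℂˣ) : ℂ) =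
      if σ = 1 then (N.totient : ℂ) else 0 := by
  simp only [chi_apply]
  rw [DirichletCharacter.sum_characters_eq]
  by_cases h : σ = 1
  · rw [if_pos h, if_pos]
    rw [h, map_one, Units.val_one]
  · rw [if_neg h, if_neg]
    rw [Units.val_eq_one, EmbeddingLike.map_eq_one_iff]
    exact h

/-- the sum of the projections -/
lemma sum_proj [DecidableEq K] (W : WeierstrassCurve ℚ) (P : (W.baseChange K).toAffine.Point) :
    ∑ ψ : DirichletCharacter ℂ N, proj W (chi N ψ) P = (N.totient : ℂ) • ((1 : ℂ) ⊗ₜ[ℤ] P) := by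
  classical
  simp only [proj_apply]
  rw [Finset.sum_comm]
  have h1 : ∀ τ : K ≃ₐ[ℚ] K, ∑ ψ : DirichletCharacter ℂ N, ((chi N ψ τ : ℂˣ) : ℂ)⁻¹ •
      ((1 : ℂ) ⊗ₜ[ℤ] gact W τ P) = (if τ = 1 then (N.totient : ℂ) else 0) •
        ((1 : ℂ) ⊗ₜ[ℤ] gact W τ P) := by
    intro τ
    rw [← Finset.sum_smul]
    congr 1
    have h2 : ∀ ψ : DirichletCharacter ℂ N, ((chi N ψ τ : ℂˣ) : ℂ)⁻¹ =
        ((chi N ψ τ⁻¹ : ℂˣ) : ℂ) := by
      intro ψ
      rw [map_inv, Units.val_inv_eq_inv_val]
    simp only [h2]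
    rw [sum_chi]
    simp
  simp only [h1]
  rw [Finset.sum_eq_single 1]
  · rw [if_pos rfl]
    congr 2
    have h3 : gact W (1 : K ≃ₐ[ℚ] K) P = P := by
      unfold gact
      exact Affine.Point.map_id (W' := W.toAffine) P
    rw [h3]
  · intro τ _ hτ
    rw [if_neg hτ, zero_smul]
  · intro h
    exact absurd (Finset.mem_univ _) h

end dir

end Pool.Agent.X257.CH
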