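import Pool.Agent.X257.CH.Char
import Pool.Agent.X257.CH.Dec
import Pool.Agent.W612.RS.Mq1
import Pool.Agent.W410.RS.MQ2

/-!
# The ranks over abelian fields of 2-power degree and over their multiquadratic extensions
-/

set_option autoImplicit false

namespace Pool.Agent.X257.CH

open NumberField IsCyclotomicExtension WeierstrassCurve Finset Pool.Agent.Y669 TensorProduct
open Pool.Agent.W307.RT (Cv Sh HasT)
open Pool.Agent.W307.RS (ShK)

/-- the groups of points over number fields are finitely generated -/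
lemma finK {K : Type} [Field K] [NumberField K] [DecidableEq K] {A B e1 e2 e3 : ℤ}
    (hD : 4 * A ^ 3 + 27 * B ^ 2 ≠ 0)
    (h : ∀ x : ℤ, x ^ 3 + A * x + B = (x - e1) * (x - e2) * (x - e3)) :
    Module.Finite ℤ (ShK (A : K) (B : K)).toAffine.Point := by
  have h0 := h 0
  have h1 := h 1
  have h2 := h (-1)
  have hs : e1 + e2 + e3 = 0 := by linarith
  have hA : A = e1 * e2 + e1 * e3 + e2 * e3 := by linarith
  have hB : B = -(e1 * e2 * e3) := by linarith
  have he3 : e3 = -e1 - e2 := by linarith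
  have hdisc : 4 * A ^ 3 + 27 * B ^ 2 = -((e1 - e2) * (e1 - e3) * (e2 - e3)) ^ 2 := by
    rw [hA, hB, he3]; ring
  rw [hdisc] at hD
  have h12 : e1 ≠ e2 := by
    intro h'; apply hD; rw [h']; ring
  have h13 : e1 ≠ e3 := by
    intro h'; apply hD; rw [h']; ring
  have h23 : e2 ≠ e3 := by
    intro h'; apply hD; rw [h']; ring
  have hc : ShK (A : K) (B : K) =
      Pool.Agent.H437R2.Man.MW.crv (-(e1 : K)) (-(e2 : K)) (-(e3 : K)) := by
    unfold ShK Pool.Agent.H437R2.Man.MW.crv
    rw [hA, hB, he3]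
    simp only [WeierstrassCurve.mk.injEq, true_and]
    refine ⟨?_, ?_, ?_⟩ <;> push_cast <;> ring
  have hfg := Pool.Agent.H437R2.Man.MW.pt_fg (K := K) (e1 := -(e1 : K)) (e2 := -(e2 : K))
    (e3 := -(e3 : K)) (fun h => h12 (by exact_mod_cast neg_injective h))
    (fun h => h13 (by exact_mod_cast neg_injective h))
    (fun h => h23 (by exact_mod_cast neg_injective h))
  rw [hc]
  exact Module.Finite.iff_addGroup_fg.2 hfg

lemma bc_Sh (K : Type) [Field K] [CharZero K] (A B : ℤ) :
    (Sh A B).baseChange K = ShK (A : K) (B : K) := by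
  unfold Sh ShK WeierstrassCurve.baseChange WeierstrassCurve.map
  simp

section rank

variable (N : ℕ) [NeZero N] {K : Type} [Field K] [NumberField K] [IsCyclotomicExtension {N} ℚ K]

open Classical in
/-- the characters that are trivial on the group of `F` -/
noncomputable def XF (F : IntermediateField ℚ K) : Finset (DirichletCharacter ℂ N) :=
  univ.filter (fun ψ => ∀ τ ∈ F.fixingSubgroup, chi N ψ τ = 1)

/-- the rank over `F` -/
theorem rank_le [DecidableEq K] (F : IntermediateField ℚ K) [DecidableEq F]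
    (W : WeierstrassCurve ℚ) (hW : Module.Finite ℤ (W.baseChange K).toAffine.Point) :
    Module.finrank ℤ (W.baseChange F).toAffine.Point ≤
      ∑ ψ ∈ XF N F, Module.finrank ℂ (PartC K (chi N ψ) W) := by
  classical
  let ι : (W.baseChange F).toAffine.Point →+ (W.baseChange K).toAffine.Point :=
    Affine.Point.map (W' := W.toAffine) F.val
  have hι : Function.Injective ι := Affine.Point.map_injective _
  have hM : Module.Finite ℤ (W.baseChange F).toAffine.Point :=
    Module.Finite.of_injective ι.toIntLinearMap hι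
  have hV : Module.Finite ℂ (ℂ ⊗[ℤ] (W.baseChange K).toAffine.Point) := inferInstance
  refine (le_finrank ι hι ((XF N F).sup fun ψ => PartC K (chi N ψ) W) ?_).trans
    (finrank_sup_le _ _)
  intro P
  have hfix : ∀ τ ∈ F.fixingSubgroup, gact W τ (ι P) = ι P := by
    intro τ hτ
    show Affine.Point.map (W' := W.toAffine) (τ : K →ₐ[ℚ] K) (Affine.Point.map _ P) =
      Affine.Point.map _ P
    have hcomp : ((τ : K →ₐ[ℚ] K)).comp F.val = F.val := by
      ext x
      exact (IntermediateField.mem_fixingSubgroup_iff F τ).1 hτ x x.2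
    rw [Affine.Point.map_map, hcomp]
  have h1 := sum_proj N W (ι P)
  have h2 : ∀ ψ : DirichletCharacter ℂ N, proj W (chi N ψ) (ι P) ∈
      ((XF N F).sup fun ψ => PartC K (chi N ψ) W : Submodule ℂ _) := by
    intro ψ
    by_cases hψ : ψ ∈ XF N F
    · exact Finset.le_sup (f := fun ψ => PartC K (chi N ψ) W) hψ (proj_mem W (chi N ψ) (ι P))
    · unfold XF at hψ
      rw [mem_filter] at hψ
      push Not at hψ
      obtain ⟨τ, hτ, hne⟩ := hψ (mem_univ _)
      have h3 := proj_gact W (chi N ψ) τ (ι P)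
      rw [hfix τ hτ] at h3
      have h4 : ((1 : ℂ) - ((chi N ψ τ : ℂˣ) : ℂ)) • proj W (chi N ψ) (ι P) = 0 := by
        rw [sub_smul, one_smul]
        exact sub_eq_zero.2 h3
      rcases smul_eq_zero.1 h4 with h5 | h5
      · exfalso
        apply hne
        apply Units.ext
        rw [Units.val_one]
        exact (sub_eq_zero.1 h5).symm
      · rw [h5]
        exact Submodule.zero_mem _
  have h3 := Submodule.sum_mem _ (fun ψ (_ : ψ ∈ (univ : Finset (DirichletCharacter ℂ N))) => h2 ψ)
  rw [h1] at h3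
  have hN : (N.totient : ℂ) ≠ 0 := by
    have := Nat.totient_pos.2 (Nat.pos_of_ne_zero (NeZero.ne N))
    exact_mod_cast this.ne'
  have h4 := Submodule.smul_mem _ ((N.totient : ℂ)⁻¹) h3
  rwa [smul_smul, inv_mul_cancel₀ hN, one_smul] at h4

lemma card_G : Nat.card (K ≃ₐ[ℚ] K) = N.totient := by
  rw [Nat.card_congr (IsCyclotomicExtension.Rat.galEquivZMod N K).toEquiv, Nat.card_eq_fintype_card,
    ZMod.card_units_eq_totient]

lemma card_XF (F : IntermediateField ℚ K) :
    (XF N F).card * Nat.card F.fixingSubgroup = N.totient := by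
  classical
  have hfin : Finite F.fixingSubgroup := inferInstance
  have := Fintype.ofFinite F.fixingSubgroup
  have h1 : ∀ ψ : DirichletCharacter ℂ N, ∑ τ : F.fixingSubgroup,
      ((chi N ψ (τ : K ≃ₐ[ℚ] K) : ℂˣ) : ℂ) =
        if ψ ∈ XF N F then (Nat.card F.fixingSubgroup : ℂ) else 0 := by
    intro ψ
    have h2 := sum_hom_units ((Units.coeHom ℂ).comp ((chi N ψ).comp F.fixingSubgroup.subtype))
    have h3 : ((Units.coeHom ℂ).comp ((chi N ψ).comp F.fixingSubgroup.subtype) = 1) ↔
        ψ ∈ XF N F := by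
      unfold XF
      rw [mem_filter]
      constructor
      · intro h
        refine ⟨mem_univ _, fun τ hτ => ?_⟩
        apply Units.ext
        exact DFunLike.congr_fun h ⟨τ, hτ⟩
      · rintro ⟨-, h⟩
        ext τ
        show ((chi N ψ (τ : K ≃ₐ[ℚ] K) : ℂˣ) : ℂ) = 1
        rw [h τ τ.2, Units.val_one]
    rw [Nat.card_eq_fintype_card]
    have h4 : ∑ τ : F.fixingSubgroup, ((chi N ψ (τ : K ≃ₐ[ℚ] K) : ℂˣ) : ℂ) =
      ∑ τ : F.fixingSubgroup, ((Units.coeHom ℂ).comp
        ((chi N ψ).comp F.fixingSubgroup.subtype)) τ := rfl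
    rw [h4, h2]
    by_cases h5 : ψ ∈ XF N F
    · rw [if_pos h5, if_pos (h3.2 h5)]
    · rw [if_neg h5, if_neg (fun h => h5 (h3.1 h))]
      simp
  have h2 : ∑ ψ : DirichletCharacter ℂ N, ∑ τ : F.fixingSubgroup,
      ((chi N ψ (τ : K ≃ₐ[ℚ] K) : ℂˣ) : ℂ) = (N.totient : ℂ) := by
    rw [Finset.sum_comm]
    have h3 : ∀ τ : F.fixingSubgroup, ∑ ψ : DirichletCharacter ℂ N,
        ((chi N ψ (τ : K ≃ₐ[ℚ] K) : ℂˣ) : ℂ) = if τ = 1 then (N.totient : ℂ) else 0 := by
      intro τ
      rw [sum_chi]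
      by_cases h : τ = 1
      · rw [if_pos h, if_pos]
        rw [h]
        rfl
      · rw [if_neg h, if_neg]
        intro h'
        exact h (Subtype.ext h')
    simp only [h3]
    rw [Finset.sum_ite_eq' univ (1 : F.fixingSubgroup)]
    simp
  simp only [h1] at h2
  rw [Finset.sum_ite_mem, Finset.univ_inter, Finset.sum_const, nsmul_eq_mul] at h2
  exact_mod_cast h2

variable {N}

lemma card_fix (F : IntermediateField ℚ K) {n : ℕ} (hn : Module.finrank ℚ F = 2 ^ n) :
    2 ^ n * Nat.card F.fixingSubgroup = N.totient := by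
  have hgal : IsGalois ℚ K := IsCyclotomicExtension.isGalois {N} ℚ K
  rw [← hn, IsGalois.card_fixingSubgroup_eq_finrank, Module.finrank_mul_finrank,
    ← IsGalois.card_aut_eq_finrank]
  exact card_G N

lemma card_XF_eq (F : IntermediateField ℚ K) {n : ℕ} (hn : Module.finrank ℚ F = 2 ^ n) :
    (XF N F).card = 2 ^ n := by
  have h1 := card_XF N F
  have h2 := card_fix (N := N) F hn
  have h3 : 0 < Nat.card F.fixingSubgroup := Nat.card_pos
  exact Nat.eq_of_mul_eq_mul_right h3 (h1.trans h2.symm)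

lemma pow_mem (F : IntermediateField ℚ K) {n : ℕ} (hn : Module.finrank ℚ F = 2 ^ n)
    (ψ : DirichletCharacter ℂ N) (hψ : ψ ∈ XF N F) (σ : K ≃ₐ[ℚ] K) :
    chi N ψ σ ^ (2 ^ n) = 1 := by
  have hgal : IsGalois ℚ K := IsCyclotomicExtension.isGalois {N} ℚ K
  have hab : ∀ σ τ : K ≃ₐ[ℚ] K, σ * τ = τ * σ := by
    intro σ τ
    apply (IsCyclotomicExtension.Rat.galEquivZMod N K).injective
    rw [map_mul, map_mul, mul_comm]
  have hnorm : F.fixingSubgroup.Normal := ⟨fun x hx y => by rw [hab y x, mul_inv_cancel_right]; exact hx⟩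
  have h2 := card_fix (N := N) F hn
  have h4 : F.fixingSubgroup.index = 2 ^ n := by
    have h3 := F.fixingSubgroup.index_mul_card
    rw [card_G N, ← h2] at h3
    exact Nat.eq_of_mul_eq_mul_right Nat.card_pos h3
  have h5 := F.fixingSubgroup.pow_index_mem σ
  rw [h4] at h5
  rw [← map_pow]
  classical
  unfold XF at hψ
  exact (mem_filter.1 hψ).2 _ h5

end rank

end Pool.Agent.X257.CH
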